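import Pool.Agent.H33.DSepDefs

set_option autoImplicit false

namespace Pool.Agent.Results.MP_718903_gt.Q1

open Pool.Agent.H33.DSep Filter Topology

def X : Type := List ℕ

def ch (n : ℕ) (s : X) : X := (n :: s : List ℕ)

def len (s : X) : ℕ := List.length s

lemma ch_inj (s : X) : Function.Injective fun n => ch n s := fun _ _ h => (List.cons.inj h).1

instance : Countable X := inferInstanceAs (Countable (List ℕ))

instance : Nonempty X := ⟨([] : List ℕ)⟩

instance : TopologicalSpace X where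
  IsOpen U := ∀ s : X, (s ∈ U ∨ ∃ m, ch m s ∈ U) → ∀ᶠ n in atTop, ch n s ∈ U
  isOpen_univ _ _ := Eventually.of_forall fun _ => trivial
  isOpen_inter U V hU hV s h :=
    (hU s (h.imp (fun h => h.1) fun ⟨m, h⟩ => ⟨m, h.1⟩)).and
      (hV s (h.imp (fun h => h.2) fun ⟨m, h⟩ => ⟨m, h.2⟩))
  isOpen_sUnion S hS s h := by
    rcases h with ⟨U, hU, h⟩ | ⟨m, U, hU, h⟩
    · exact (hS U hU s (Or.inl h)).mono fun n hn => ⟨U, hU, hn⟩
    · exact (hS U hU s (Or.inr ⟨m, h⟩)).mono fun n hn => ⟨U, hU, hn⟩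

lemma open_iff (U : Set X) :
    IsOpen U ↔ ∀ s : X, (s ∈ U ∨ ∃ m, ch m s ∈ U) → ∀ᶠ n in atTop, ch n s ∈ U := Iff.rfl

lemma open_compl (G : Set X) (h : ∀ s, {m | ch m s ∈ G}.Finite) : IsOpen Gᶜ := by
  intro s _
  rw [← Nat.cofinite_eq_atTop, eventually_cofinite]
  simpa using h s

instance : T1Space X := ⟨fun t => ⟨open_compl _ fun s =>
  (Set.finite_singleton t).preimage (ch_inj s).injOn⟩⟩

lemma seq : Sequential X := by
  intro A hA
  rw [← isOpen_compl_iff, open_iff] at hA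
  push Not at hA
  obtain ⟨s, hs, hf⟩ := hA
  obtain ⟨φ, hφ, hA⟩ := extraction_of_frequently_atTop hf
  have hA' : ∀ n, ch (φ n) s ∈ A := fun n => by simpa using hA n
  have key : ∀ p, p ∉ A → (p = s ∨ ∃ m, p = ch m s) →
      ∃ p ∈ closure A \ A, ∃ u : ℕ → X, (∀ n, u n ∈ A) ∧ Tendsto u atTop (𝓝 p) := by
    intro p hp h
    have ht : Tendsto (fun n => ch (φ n) s) atTop (𝓝 p) := by
      rw [tendsto_nhds]
      intro U hU hpU
      refine hφ.tendsto_atTop.eventually (hU s ?_)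
      rcases h with rfl | ⟨m, rfl⟩
      · exact Or.inl hpU
      · exact Or.inr ⟨m, hpU⟩
    exact ⟨p, ⟨mem_closure_of_tendsto ht (Eventually.of_forall hA'), hp⟩, _, hA', ht⟩
  rcases hs with h | ⟨m, h⟩
  · exact key s h (Or.inl rfl)
  · exact key _ h (Or.inr ⟨m, rfl⟩)

lemma dense_len (n : ℕ) : Dense {s : X | n ≤ len s} := by
  rw [dense_iff_inter_open]
  rintro U hU ⟨s, hs⟩
  induction n with
  | zero => exact ⟨s, hs, Nat.zero_le _⟩
  | succ n ih =>
    obtain ⟨t, ht, hn⟩ := ih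
    obtain ⟨m, hm⟩ := (hU t (Or.inl ht)).exists
    exact ⟨ch m t, hm, Nat.succ_le_succ hn⟩

lemma disc_fin (F : Set X) (hF : DiscreteTopology F) (s : X) : {m | ch m s ∈ F}.Finite := by
  by_contra hinf
  obtain ⟨m, hm⟩ := Set.Infinite.nonempty hinf
  obtain ⟨U, hU, hU2⟩ := isOpen_induced_iff.1 (isOpen_discrete ({⟨ch m s, hm⟩} : Set F))
  have h1 : ch m s ∈ U := by
    have : (⟨ch m s, hm⟩ : F) ∈ Subtype.val ⁻¹' U := by rw [hU2]; rfl
    exact this
  have h2 := hU s (Or.inr ⟨m, h1⟩)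
  rw [← Nat.cofinite_eq_atTop, eventually_cofinite] at h2
  refine hinf ((h2.union (Set.finite_singleton m)).subset fun k hk => ?_)
  by_cases h : ch k s ∈ U
  · right
    have : (⟨ch k s, hk⟩ : F) ∈ Subtype.val ⁻¹' U := h
    rw [hU2] at this
    exact ch_inj s (congrArg Subtype.val this)
  · exact Or.inl h

theorem result : ∃ (X : Type) (_ : TopologicalSpace X), Countable X ∧ T1Space X ∧
    Sequential X ∧ LowerDSeparable X ∧ ¬ UpperDSeparable X := by
  refine ⟨X, inferInstance, inferInstance, inferInstance, seq, ?_, fun h => ?_⟩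
  · obtain ⟨e, he⟩ := exists_surjective_nat X
    refine ⟨fun n => {e n}, fun n => inferInstance, ?_⟩
    have : (⋃ n, ({e n} : Set X)) = Set.univ := by
      rw [Set.iUnion_singleton_eq_range]; exact he.range_eq
    rw [this]; exact dense_univ
  · obtain ⟨F, hF, hd⟩ := h _ dense_len
    have h1 : ∀ s, {m | ch m s ∈ ⋃ n, F n}.Finite := by
      intro s
      refine ((Set.finite_le_nat (len s + 1)).biUnion fun n _ =>
        disc_fin (F n) (hF n).2 s).subset fun m hm => ?_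
      obtain ⟨n, hn⟩ := Set.mem_iUnion.1 hm
      exact Set.mem_biUnion ((hF n).1 hn) hn
    obtain ⟨m, hm⟩ := (h1 ([] : List ℕ)).exists_notMem
    obtain ⟨x, h2, h3⟩ := hd.inter_open_nonempty _ (open_compl _ h1) ⟨_, hm⟩
    exact h2 h3

end Pool.Agent.Results.MP_718903_gt.Q1
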